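import Mathlib
set_option autoImplicit false

/-! Limits of uniformly bounded entire functions along an ultrafilter. -/

namespace Pool.Agent.Y250.UI

open Filter Topology Metric Set

lemma iter_tendsto {ι : Type*} {φ : Filter ι} [φ.NeBot] (F : ι → ℂ → ℂ) (f : ℂ → ℂ)
    (h : TendstoLocallyUniformlyOn F f φ univ) (hF : ∀ i, Differentiable ℂ (F i)) (κ : ℕ) :
    TendstoLocallyUniformlyOn (fun i => iteratedDeriv κ (F i)) (iteratedDeriv κ f) φ univ := by
  have hd : ∀ (κ : ℕ) (i : ι), Differentiable ℂ (iteratedDeriv κ (F i)) := by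
    intro κ i
    exact ((hF i).contDiff (n := ((κ + 1 : ℕ) : WithTop ℕ∞))).differentiable_iteratedDeriv κ
      (by exact_mod_cast Nat.lt_succ_self κ)
  induction κ with
  | zero => simpa using h
  | succ k ih =>
    have h1 := ih.deriv (Eventually.of_forall fun i => (hd k i).differentiableOn) isOpen_univ
    simpa only [iteratedDeriv_succ, Function.comp_def] using h1

lemma equiLip (M : ℂ → ℝ) (hM : Continuous M) (z0 : ℂ) : ∃ K : ℝ, 0 < K ∧
    ∀ g : ℂ → ℂ, Differentiable ℂ g → (∀ z, ‖g z‖ ≤ M z) →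
      ∀ w ∈ ball z0 1, ‖g w - g z0‖ ≤ K * ‖w - z0‖ := by
  obtain ⟨C, hC⟩ := (isCompact_closedBall z0 1).exists_bound_of_continuousOn hM.continuousOn
  refine ⟨2 * |C| + 1, by positivity, ?_⟩
  intro g hg hb w hw
  have hmaps : MapsTo g (ball z0 1) (closedBall (g z0) (2 * |C| + 1)) := by
    intro x hx
    rw [mem_closedBall, dist_eq_norm]
    have h1 := (hb x).trans ((le_abs_self _).trans (hC x (ball_subset_closedBall hx)))
    have h2 := (hb z0).trans ((le_abs_self _).trans (hC z0 (mem_closedBall_self zero_le_one)))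
    have h3 := norm_sub_le (g x) (g z0)
    have h4 := le_abs_self C
    linarith
  have h4 := Complex.dist_le_div_mul_dist_of_mapsTo_ball hg.differentiableOn hmaps hw
  rw [dist_eq_norm, dist_eq_norm, div_one] at h4
  exact h4

/-- An ultrafilter limit of entire functions with a common continuous bound. -/
lemma montel {ι : Type*} (U : Ultrafilter ι) (M : ℂ → ℝ) (hM : Continuous M) (g : ι → ℂ → ℂ)
    (hg : ∀ i, Differentiable ℂ (g i)) (hb : ∀ i z, ‖g i z‖ ≤ M z) :
    ∃ G : ℂ → ℂ, Differentiable ℂ G ∧ (∀ z, ‖G z‖ ≤ M z) ∧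
      ∀ (κ : ℕ) (a : ℂ), Tendsto (fun i => iteratedDeriv κ (g i) a) U
        (𝓝 (iteratedDeriv κ G a)) := by
  have h1 : ∀ z : ℂ, ∃ y ∈ closedBall (0 : ℂ) (M z), Tendsto (fun i => g i z) U (𝓝 y) := by
    intro z
    have := (isCompact_closedBall (0 : ℂ) (M z)).ultrafilter_le_nhds (U.map fun i => g i z)
      (by
        rw [le_principal_iff]
        refine Filter.mem_map.2 (Filter.univ_mem' fun i => ?_)
        simpa using hb i z)
    obtain ⟨y, hy, h⟩ := this
    exact ⟨y, hy, h⟩
  choose G hGm hGt using h1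
  have hlu : TendstoLocallyUniformlyOn g G (U : Filter ι) univ := by
    rw [Metric.tendstoLocallyUniformlyOn_iff]
    intro ε hε x _
    obtain ⟨K, hK, hL⟩ := equiLip M hM x
    refine ⟨ball x (min 1 (ε / (4 * K))), ?_, ?_⟩
    · rw [nhdsWithin_univ]
      exact ball_mem_nhds _ (by positivity)
    · have h2 : ∀ᶠ i in (U : Filter ι), dist (g i x) (G x) < ε / 4 :=
        Metric.tendsto_nhds.1 (hGt x) _ (by positivity)
      filter_upwards [h2] with i hi y hy
      have hy1 : y ∈ ball x 1 := ball_subset_ball (min_le_left _ _) hy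
      have hy2 : ‖y - x‖ < ε / (4 * K) := by
        have := ball_subset_ball (min_le_right _ _) hy
        rwa [mem_ball, dist_eq_norm] at this
      have hy3 : K * ‖y - x‖ < ε / 4 := by
        rw [lt_div_iff₀ (by positivity)] at hy2
        linarith
      have h3 : ‖g i y - g i x‖ ≤ K * ‖y - x‖ := hL (g i) (hg i) (hb i) y hy1
      have h4 : ‖G y - G x‖ ≤ K * ‖y - x‖ :=
        le_of_tendsto (((hGt y).sub (hGt x)).norm)
          (Eventually.of_forall fun j => hL (g j) (hg j) (hb j) y hy1)
      rw [dist_eq_norm] at hi ⊢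
      have h5 : G y - g i y = (G y - G x) - (g i x - G x) - (g i y - g i x) := by ring
      rw [h5]
      have h6 := norm_sub_le ((G y - G x) - (g i x - G x)) (g i y - g i x)
      have h7 := norm_sub_le (G y - G x) (g i x - G x)
      linarith
  refine ⟨G, ?_, fun z => by simpa using hGm z, ?_⟩
  · have := hlu.differentiableOn (Eventually.of_forall fun i => (hg i).differentiableOn)
      isOpen_univ
    exact differentiableOn_univ.1 this
  · intro κ a
    exact (iter_tendsto g G hlu hg κ).tendsto_at (mem_univ a)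

end Pool.Agent.Y250.UI
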