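import Mathlib
import Pool.Agent.Y250.UIa
set_option autoImplicit false

/-! Uniform bounds for interpolating functions, by the Baire category theorem. -/

namespace Pool.Agent.Y250.UI

open Filter Topology Metric Set

/-- The weight. -/
noncomputable def rho (z : ℂ) : ℝ := |z.im| + Real.log (1 + ‖z‖ ^ 2)

lemma rho_cont : Continuous rho := by
  unfold rho
  refine (Complex.continuous_im.abs).add (Continuous.log (by fun_prop) fun z => ?_)
  positivity

lemma rho_nonneg (z : ℂ) : 0 ≤ rho z := by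
  unfold rho
  have : 0 ≤ Real.log (1 + ‖z‖ ^ 2) := Real.log_nonneg (by nlinarith [sq_nonneg ‖z‖])
  positivity

/-- The class. -/
def Cls (f : ℂ → ℂ) : Prop :=
  Differentiable ℂ f ∧ ∃ A > (0:ℝ), ∃ B > (0:ℝ), ∀ z : ℂ, ‖f z‖ ≤ A * Real.exp (B * rho z)

/-- Universal interpolation. -/
def Univ (a : ℕ → ℂ) (p : ℕ → ℕ) : Prop :=
  ∀ lam : ℕ → ℕ → ℂ,
      (∃ A > (0:ℝ), ∃ B > (0:ℝ), ∀ n, ∀ κ < p n,
        ‖lam n κ‖ ≤ A * Real.exp (B * rho (a n))) →
      ∃ g : ℂ → ℂ, Cls g ∧ ∀ n, ∀ κ < p n,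
        iteratedDeriv κ g (a n) / (κ.factorial : ℂ) = lam n κ

lemma exp_mono {A B : ℝ} {k : ℕ} (hA : A ≤ k) (hB : B ≤ k) (z : ℂ) :
    A * Real.exp (B * rho z) ≤ k * Real.exp (k * rho z) := by
  have h1 : Real.exp (B * rho z) ≤ Real.exp (k * rho z) :=
    Real.exp_le_exp.2 (mul_le_mul_of_nonneg_right hB (rho_nonneg z))
  exact mul_le_mul hA h1 (Real.exp_pos _).le (Nat.cast_nonneg _)

/-- The array with ones at the top entries of the points selected by `x`. -/
noncomputable def arr (p : ℕ → ℕ) (x : ℕ → Bool) (n κ : ℕ) : ℂ :=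
  if κ + 1 = p n ∧ x n = true then 1 else 0

lemma arr_le (p : ℕ → ℕ) (x : ℕ → Bool) (n κ : ℕ) : ‖arr p x n κ‖ ≤ 1 := by
  unfold arr
  split_ifs <;> simp

def Bd (k : ℕ) (g : ℂ → ℂ) : Prop :=
  Differentiable ℂ g ∧ ∀ z, ‖g z‖ ≤ k * Real.exp (k * rho z)

lemma Bd.mono {k l : ℕ} (h : k ≤ l) {g : ℂ → ℂ} (hg : Bd k g) : Bd l g :=
  ⟨hg.1, fun z => (hg.2 z).trans (exp_mono (by exact_mod_cast h) (by exact_mod_cast h) z)⟩

def SS (a : ℕ → ℂ) (p : ℕ → ℕ) (k : ℕ) : Set (ℕ → Bool) :=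
  {x | ∃ g, Bd k g ∧ ∀ n, ∀ κ < p n, iteratedDeriv κ g (a n) / (κ.factorial : ℂ) = arr p x n κ}

lemma SS_univ {a : ℕ → ℂ} {p : ℕ → ℕ} (h : Univ a p) : ⋃ k, SS a p k = univ := by
  rw [eq_univ_iff_forall]
  intro x
  obtain ⟨g, ⟨hg, A, hA, B, hB, hb⟩, hi⟩ := h (arr p x) ⟨1, one_pos, 1, one_pos, fun n κ _ => by
    refine (arr_le p x n κ).trans ?_
    rw [one_mul, one_mul]
    exact Real.one_le_exp (rho_nonneg _)⟩
  obtain ⟨k, hk⟩ := exists_nat_ge (max A B)
  rw [mem_iUnion]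
  exact ⟨k, g, ⟨hg, fun z => (hb z).trans (exp_mono ((le_max_left _ _).trans hk)
    ((le_max_right _ _).trans hk) z)⟩, hi⟩

lemma SS_closed (a : ℕ → ℂ) (p : ℕ → ℕ) (k : ℕ) : IsClosed (SS a p k) := by
  classical
  rw [isClosed_iff_ultrafilter]
  intro x u hu hs
  set g : (ℕ → Bool) → ℂ → ℂ := fun y => if h : y ∈ SS a p k then h.choose else 0 with hg
  have hgB : ∀ y, Bd k (g y) := by
    intro y
    by_cases h : y ∈ SS a p k
    · rw [hg]
      simp only [dif_pos h]
      exact h.choose_spec.1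
    · rw [hg]
      simp only [dif_neg h]
      refine ⟨differentiable_const 0, fun z => ?_⟩
      simp only [Pi.zero_apply, norm_zero]
      positivity
  have hgi : ∀ y ∈ SS a p k, ∀ n, ∀ κ < p n,
      iteratedDeriv κ (g y) (a n) / (κ.factorial : ℂ) = arr p y n κ := by
    intro y h
    rw [hg]
    simp only [dif_pos h]
    exact h.choose_spec.2
  obtain ⟨G, hG, hGb, hGt⟩ := montel u (fun z => k * Real.exp (k * rho z))
    (by have := rho_cont; fun_prop) g (fun y => (hgB y).1) (fun y z => (hgB y).2 z)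
  refine ⟨G, ⟨hG, hGb⟩, ?_⟩
  intro n κ hκ
  have h1 := (hGt κ (a n)).div_const (κ.factorial : ℂ)
  have h2 : Tendsto (fun y => iteratedDeriv κ (g y) (a n) / (κ.factorial : ℂ)) u
      (𝓝 (arr p x n κ)) := by
    have h3 : ∀ᶠ y in (u : Filter (ℕ → Bool)), y n = x n := by
      have h4 : ∀ᶠ y in 𝓝 x, y n = x n := by
        have h5 : Tendsto (fun y : ℕ → Bool => y n) (𝓝 x) (𝓝 (x n)) :=
          (continuous_apply n).tendsto x
        exact h5.eventually ((isOpen_discrete {x n}).mem_nhds rfl)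
      exact hu h4
    refine tendsto_const_nhds.congr' ?_
    have h6 : ∀ᶠ y in (u : Filter (ℕ → Bool)), y ∈ SS a p k := hs
    filter_upwards [h3, h6] with y hy hy2
    rw [hgi y hy2 n κ hκ]
    unfold arr
    rw [hy]
  exact tendsto_nhds_unique h1 h2

/-- Uniform bounds for the functions interpolating the unit arrays. -/
lemma uniform {a : ℕ → ℂ} {p : ℕ → ℕ} (h : Univ a p) :
    ∃ K : ℕ, ∀ n, ∃ g, Bd K g ∧ ∀ m, ∀ κ < p m,
      iteratedDeriv κ g (a m) / (κ.factorial : ℂ) = if κ + 1 = p m ∧ m = n then 1 else 0 := by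
  classical
  obtain ⟨k, hk⟩ := nonempty_interior_of_iUnion_of_closed (SS_closed a p) (SS_univ h)
  obtain ⟨x0, hx0⟩ := hk
  have hx0' : x0 ∈ SS a p k := interior_subset hx0
  have ht : Tendsto (fun n : ℕ => Function.update x0 n (!x0 n)) atTop (𝓝 x0) := by
    rw [tendsto_pi_nhds]
    intro i
    refine tendsto_const_nhds.congr' ?_
    filter_upwards [eventually_gt_atTop i] with n hn
    rw [Function.update_of_ne hn.ne]
  obtain ⟨N, hN⟩ := eventually_atTop.1 (ht.eventually (isOpen_interior.mem_nhds hx0))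
  -- single functions
  have hsing : ∀ n, ∃ k : ℕ, ∃ g, Bd k g ∧ ∀ m, ∀ κ < p m,
      iteratedDeriv κ g (a m) / (κ.factorial : ℂ) = if κ + 1 = p m ∧ m = n then 1 else 0 := by
    intro n
    have : (fun m : ℕ => decide (m = n)) ∈ ⋃ k, SS a p k := by
      rw [SS_univ h]
      exact mem_univ _
    obtain ⟨l, g, hg, hi⟩ := mem_iUnion.1 this
    refine ⟨l, g, hg, fun m κ hκ => ?_⟩
    rw [hi m κ hκ]
    unfold arr
    simp only [decide_eq_true_eq]
  choose kk hkk using hsing
  refine ⟨max (2 * k) ((Finset.range N).sup kk), ?_⟩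
  intro n
  by_cases hn : n < N
  · obtain ⟨g, hg, hi⟩ := hkk n
    exact ⟨g, hg.mono ((Finset.le_sup (f := kk) (Finset.mem_range.2 hn)).trans
      (le_max_right _ _)), hi⟩
  · push Not at hn
    obtain ⟨g0, hg0, hi0⟩ := hx0'
    obtain ⟨g1, hg1, hi1⟩ := interior_subset (hN n hn)
    set s : ℂ := if x0 n = true then -1 else 1 with hs
    have hs1 : ‖s‖ = 1 := by
      rw [hs]
      split_ifs <;> simp
    refine ⟨fun z => s * (g1 z - g0 z), ⟨(hg1.1.sub hg0.1).const_mul s, fun z => ?_⟩, ?_⟩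
    · rw [norm_mul, hs1, one_mul]
      have h1 := norm_sub_le (g1 z) (g0 z)
      have h2 := hg1.2 z
      have h3 := hg0.2 z
      have h4 : (k : ℝ) * Real.exp (k * rho z) + k * Real.exp (k * rho z) ≤
          ((2 * k : ℕ) : ℝ) * Real.exp ((2 * k : ℕ) * rho z) := by
        have h5 : Real.exp (k * rho z) ≤ Real.exp ((2 * k : ℕ) * rho z) := by
          apply Real.exp_le_exp.2
          apply mul_le_mul_of_nonneg_right _ (rho_nonneg z)
          push_cast
          have : (0 : ℝ) ≤ k := Nat.cast_nonneg k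
          linarith
        push_cast at h5 ⊢
        have : (0 : ℝ) ≤ k := Nat.cast_nonneg k
        nlinarith
      have h6 := exp_mono (A := ((2 * k : ℕ) : ℝ)) (B := ((2 * k : ℕ) : ℝ))
        (k := max (2 * k) ((Finset.range N).sup kk)) (by exact_mod_cast le_max_left _ _)
        (by exact_mod_cast le_max_left _ _) z
      linarith
    · intro m κ hκ
      have hc0 : ContDiffAt ℂ κ g0 (a m) := hg0.1.contDiff.contDiffAt
      have hc1 : ContDiffAt ℂ κ g1 (a m) := hg1.1.contDiff.contDiffAt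
      have h1 : iteratedDeriv κ (fun z => s * (g1 z - g0 z)) (a m) =
          s * (iteratedDeriv κ g1 (a m) - iteratedDeriv κ g0 (a m)) := by
        have h2 : (fun z => s * (g1 z - g0 z)) = fun z => s * (g1 - g0) z := rfl
        rw [h2, iteratedDeriv_const_mul_field, iteratedDeriv_sub hc1 hc0]
      rw [h1, mul_div_assoc, sub_div, hi1 m κ hκ, hi0 m κ hκ]
      unfold arr
      by_cases hmn : m = n
      · subst hmn
        rw [Function.update_self]
        rcases hx : x0 m with _ | _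
        · simp [hs, hx]
        · by_cases hp : κ + 1 = p m
          · simp [hs, hx, hp]
          · simp [hs, hx, hp]
      · rw [Function.update_of_ne hmn]
        simp [hmn]

end Pool.Agent.Y250.UI
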