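import Mathlib
set_option autoImplicit false

/-! Random choice of coefficients: an infinite linear system with dominant enough diagonal has a
solution set avoiding small values. -/

namespace Pool.Agent.Y250.UI

open Filter Topology Metric Set MeasureTheory
open scoped ENNReal

/-- Finite version. -/
lemma choose_fin {ι : Type*} [Fintype ι] [DecidableEq ι] (c : ι → ι → ℂ) (δ w : ι → ℝ)
    (hw : ∀ m, 0 < w m) (hδ : ∀ m, 0 < δ m) (hc : ∀ m, ‖c m m‖ = w m)
    (hlt : ∑ m, 2 * δ m / w m < 1) :
    ∃ x : ι → ℝ, (∀ n, 0 ≤ x n ∧ x n ≤ 1) ∧ ∀ m, δ m ≤ ‖∑ n, (x n : ℂ) * c n m‖ := by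
  set μ : Measure ℝ := volume.restrict (Icc (0 : ℝ) 1) with hμ
  have hprob : IsProbabilityMeasure μ := ⟨by
    rw [hμ, Measure.restrict_apply_univ, Real.volume_Icc]
    simp⟩
  set P : Measure (ι → ℝ) := Measure.pi (fun _ => μ) with hP
  set bad : ι → Set (ι → ℝ) := fun m => {x | ‖∑ n, (x n : ℂ) * c n m‖ < δ m} with hbad
  have hopen : ∀ m, IsOpen (bad m) := by
    intro m
    apply isOpen_lt
    · fun_prop
    · exact continuous_const
  have hbm : ∀ m, P (bad m) ≤ ENNReal.ofReal (2 * δ m / w m) := by
    intro m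
    have h1 : P (bad m) = ∫⁻ x, (bad m).indicator (fun _ => (1 : ℝ≥0∞)) x ∂P := by
      rw [lintegral_indicator (hopen m).measurableSet]
      simp
    rw [h1, hP, lintegral_eq_lmarginal_univ (fun _ => (0 : ℝ)),
      lmarginal_erase' (μ := fun _ : ι => μ) _ (measurable_const.indicator (hopen m).measurableSet)
        (Finset.mem_univ m)]
    have h2 : (fun x : ι → ℝ => ∫⁻ t, (bad m).indicator (fun _ => (1 : ℝ≥0∞))
        (Function.update x m t) ∂μ) ≤ fun _ => ENNReal.ofReal (2 * δ m / w m) := by
      intro x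
      simp only
      set T : Set ℝ := {t | Function.update x m t ∈ bad m} with hT
      have hTm : MeasurableSet T := by
        have : IsOpen T := (hopen m).preimage (by fun_prop)
        exact this.measurableSet
      have h3 : (fun t => (bad m).indicator (fun _ => (1 : ℝ≥0∞)) (Function.update x m t)) =
          T.indicator (fun _ => 1) := by
        ext t
        by_cases h : Function.update x m t ∈ bad m
        · rw [indicator_of_mem h, indicator_of_mem (show t ∈ T from h)]
        · rw [indicator_of_notMem h, indicator_of_notMem (show t ∉ T from h)]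
      rw [h3, lintegral_indicator hTm]
      simp only [lintegral_const, one_mul, Measure.restrict_apply_univ]
      calc μ T ≤ volume T := Measure.restrict_apply_le _ _
        _ ≤ Metric.ediam T := Real.volume_le_diam T
        _ ≤ ENNReal.ofReal (2 * δ m / w m) := by
          apply Metric.ediam_le
          intro t ht t' ht'
          rw [edist_dist]
          apply ENNReal.ofReal_le_ofReal
          rw [le_div_iff₀ (hw m), Real.dist_eq]
          have e1 : ∀ t : ℝ, ∑ n, ((Function.update x m t n : ℝ) : ℂ) * c n m =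
              (t : ℂ) * c m m + ∑ n ∈ Finset.univ.erase m, (x n : ℂ) * c n m := by
            intro t
            rw [← Finset.add_sum_erase _ _ (Finset.mem_univ m), Function.update_self]
            congr 1
            apply Finset.sum_congr rfl
            intro n hn
            rw [Function.update_of_ne (Finset.ne_of_mem_erase hn)]
          have e2 : ‖((t : ℂ) - t') * c m m‖ < 2 * δ m := by
            have a1 : ‖∑ n, ((Function.update x m t n : ℝ) : ℂ) * c n m‖ < δ m := ht
            have a2 : ‖∑ n, ((Function.update x m t' n : ℝ) : ℂ) * c n m‖ < δ m := ht'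
            have a3 : ((t : ℂ) - t') * c m m =
                (∑ n, ((Function.update x m t n : ℝ) : ℂ) * c n m) -
                  ∑ n, ((Function.update x m t' n : ℝ) : ℂ) * c n m := by
              rw [e1, e1]
              ring
            rw [a3]
            have := norm_sub_le (∑ n, ((Function.update x m t n : ℝ) : ℂ) * c n m)
              (∑ n, ((Function.update x m t' n : ℝ) : ℂ) * c n m)
            linarith
          rw [norm_mul, hc m, ← Complex.ofReal_sub, Complex.norm_real, Real.norm_eq_abs] at e2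
          exact e2.le
    refine (lmarginal_mono h2 _).trans ?_
    unfold lmarginal
    rw [lintegral_const, measure_univ, mul_one]
  have hU : P (⋃ m, bad m) < 1 := by
    calc P (⋃ m, bad m) ≤ ∑ m, P (bad m) := measure_iUnion_fintype_le _ _
      _ ≤ ∑ m, ENNReal.ofReal (2 * δ m / w m) := Finset.sum_le_sum fun m _ => hbm m
      _ = ENNReal.ofReal (∑ m, 2 * δ m / w m) := by
        rw [ENNReal.ofReal_sum_of_nonneg]
        intro m _
        have := hw m
        have := hδ m
        positivity
      _ < 1 := by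
        rw [← ENNReal.ofReal_one]
        exact (ENNReal.ofReal_lt_ofReal_iff one_pos).2 hlt
  have hbox : P (Set.pi univ fun _ => Icc (0 : ℝ) 1) = 1 := by
    rw [hP, Measure.pi_pi]
    simp [hμ]
  by_contra hcon
  push Not at hcon
  have hsub : (Set.pi univ fun _ : ι => Icc (0 : ℝ) 1) ⊆ ⋃ m, bad m := by
    intro x hx
    obtain ⟨m, hm⟩ := hcon x (fun n => hx n (mem_univ n))
    exact mem_iUnion.2 ⟨m, hm⟩
  have := measure_mono (μ := P) hsub
  rw [hbox] at this
  exact absurd hU (not_lt.2 this)

/-- Infinite version. -/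
lemma choose_inf (c : ℕ → ℕ → ℂ) (δ w : ℕ → ℝ)
    (hw : ∀ m, 0 < w m) (hδ : ∀ m, 0 < δ m) (hc : ∀ m, ‖c m m‖ = w m)
    (hs : ∀ m, Summable fun n => ‖c n m‖)
    (hbs : Summable fun m => 2 * δ m / w m) (hlt : ∑' m, 2 * δ m / w m < 1) :
    ∃ x : ℕ → ℝ, (∀ n, 0 ≤ x n ∧ x n ≤ 1) ∧ ∀ m, δ m ≤ ‖∑' n, (x n : ℂ) * c n m‖ := by
  classical
  set cl : ℝ → ℝ := fun t => max 0 (min 1 t) with hcl
  have hclc : Continuous cl := by fun_prop
  have hcl0 : ∀ t, 0 ≤ cl t := fun t => le_max_left _ _
  have hcl1 : ∀ t, cl t ≤ 1 := fun t => max_le zero_le_one (min_le_left _ _)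
  have hcle : ∀ t, 0 ≤ t → t ≤ 1 → cl t = t := by
    intro t h0 h1
    rw [hcl]
    simp only
    rw [min_eq_right h1, max_eq_right h0]
  have hcn : ∀ (t : ℝ) (z : ℂ), ‖((cl t : ℝ) : ℂ) * z‖ ≤ ‖z‖ := by
    intro t z
    rw [norm_mul, Complex.norm_real, Real.norm_eq_abs, abs_of_nonneg (hcl0 t)]
    have := norm_nonneg z
    have := hcl1 t
    nlinarith
  set L : ℕ → (ℕ → ℝ) → ℂ := fun m x => ∑' n, ((cl (x n) : ℝ) : ℂ) * c n m with hL
  have hLc : ∀ m, Continuous (L m) := by
    intro m
    apply continuous_tsum (u := fun n => ‖c n m‖)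
    · intro n
      fun_prop
    · exact hs m
    · intro n x
      exact hcn _ _
  set K : Set (ℕ → ℝ) := Set.pi univ fun _ => Icc (0 : ℝ) 1 with hK
  have hKc : IsCompact K := isCompact_univ_pi fun _ => isCompact_Icc
  set t : ℕ → Set (ℕ → ℝ) := fun m => {x | δ m ≤ ‖L m x‖} with ht
  have htc : ∀ m, IsClosed (t m) := fun m => isClosed_le continuous_const (hLc m).norm
  have hfin : ∀ u : Finset ℕ, (K ∩ ⋂ m ∈ u, t m).Nonempty := by
    intro u
    have hpos : ∀ m, 0 ≤ 2 * δ m / w m := by
      intro m
      have := hw m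
      have := hδ m
      positivity
    obtain ⟨y, hy, hym⟩ := choose_fin (ι := u) (fun n m => c n m) (fun m => δ m) (fun m => w m)
      (fun m => hw m) (fun m => hδ m) (fun m => hc m) (by
        refine lt_of_le_of_lt ?_ hlt
        rw [Finset.sum_coe_sort u (fun m => 2 * δ m / w m)]
        exact hbs.sum_le_tsum u (fun m _ => hpos m))
    set x : ℕ → ℝ := fun n => if h : n ∈ u then y ⟨n, h⟩ else 0 with hx
    have hx01 : ∀ n, 0 ≤ x n ∧ x n ≤ 1 := by
      intro n
      rw [hx]
      by_cases h : n ∈ u
      · simp only [dif_pos h]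
        exact hy _
      · simp only [dif_neg h]
        exact ⟨le_rfl, zero_le_one⟩
    refine ⟨x, fun n _ => hx01 n, ?_⟩
    rw [mem_iInter₂]
    intro m hm
    have e1 : L m x = ∑ n : u, (y n : ℂ) * c n m := by
      rw [hL]
      simp only
      rw [tsum_eq_sum (s := u)]
      · rw [← Finset.sum_coe_sort u]
        apply Finset.sum_congr rfl
        intro n _
        rw [hcle _ (hx01 _).1 (hx01 _).2, hx]
        simp
      · intro n hn
        rw [hcle _ (hx01 _).1 (hx01 _).2, hx]
        simp [dif_neg hn]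
    show δ m ≤ ‖L m x‖
    rw [e1]
    exact hym ⟨m, hm⟩
  obtain ⟨x, hxK, hxt⟩ := hKc.inter_iInter_nonempty t htc hfin
  refine ⟨x, fun n => hxK n (mem_univ n), fun m => ?_⟩
  have h1 : δ m ≤ ‖L m x‖ := mem_iInter.1 hxt m
  rw [hL] at h1
  simp only at h1
  convert h1 using 5 with n
  rw [hcle _ (hxK n (mem_univ n)).1 (hxK n (mem_univ n)).2]

end Pool.Agent.Y250.UI
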