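import Mathlib
import Pool.Agent.Y250.UIb
import Pool.Agent.Y250.UIc
set_option autoImplicit false

/-! Separation, summability, and the main construction. -/

namespace Pool.Agent.Y250.UI

open Filter Topology Metric Set MeasureTheory

lemma rho_near {a z : ℂ} (h : ‖z - a‖ ≤ 1) : rho z ≤ rho a + 3 := by
  unfold rho
  have h1 : |z.im| ≤ |a.im| + 1 := by
    have h2 : |(z - a).im| ≤ 1 := (Complex.abs_im_le_norm _).trans h
    rw [Complex.sub_im] at h2
    have h3 : |z.im| ≤ |z.im - a.im| + |a.im| := by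
      have := abs_add_le (z.im - a.im) a.im
      simpa using this
    linarith
  have h2 : ‖z‖ ≤ ‖a‖ + 1 := by
    have := norm_add_le (z - a) a
    rw [sub_add_cancel] at this
    linarith
  have h3 : 1 + ‖z‖ ^ 2 ≤ 3 * (1 + ‖a‖ ^ 2) := by
    have := norm_nonneg a
    have := norm_nonneg z
    nlinarith [sq_nonneg (‖a‖ - 1)]
  have h4 : Real.log (1 + ‖z‖ ^ 2) ≤ Real.log 3 + Real.log (1 + ‖a‖ ^ 2) := by
    rw [← Real.log_mul (by norm_num) (by positivity)]
    exact Real.log_le_log (by positivity) h3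
  have h5 : Real.log 3 ≤ 2 := by
    have := Real.log_le_sub_one_of_pos (show (0 : ℝ) < 3 by norm_num)
    linarith
  linarith

/-- The derivatives of a product with a linear factor. -/
lemma iter_lin (g : ℂ → ℂ) (hg : Differentiable ℂ g) (b : ℂ) (κ : ℕ) :
    iteratedDeriv κ (fun z => (z - b) * g z) = fun z => (z - b) * iteratedDeriv κ g z +
      κ * iteratedDeriv (κ - 1) g z := by
  have hd : ∀ (κ : ℕ), Differentiable ℂ (iteratedDeriv κ g) := by
    intro κ
    exact (hg.contDiff (n := ((κ + 1 : ℕ) : WithTop ℕ∞))).differentiable_iteratedDeriv κ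
      (by exact_mod_cast Nat.lt_succ_self κ)
  induction κ with
  | zero =>
    ext z
    simp
  | succ k ih =>
    rw [iteratedDeriv_succ, ih]
    ext z
    have h1 : HasDerivAt (iteratedDeriv k g) (iteratedDeriv (k + 1) g z) z := by
      rw [iteratedDeriv_succ]
      exact (hd k z).hasDerivAt
    have h2 : HasDerivAt (fun z : ℂ => (k : ℂ) * iteratedDeriv (k - 1) g z)
        ((k : ℂ) * iteratedDeriv k g z) z := by
      rcases k with _ | k
      · simpa using hasDerivAt_const z (0 : ℂ)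
      · have h3 : HasDerivAt (iteratedDeriv k g) (iteratedDeriv (k + 1) g z) z := by
          rw [iteratedDeriv_succ]
          exact (hd k z).hasDerivAt
        simpa using h3.const_mul ((k + 1 : ℕ) : ℂ)
    have h4 : HasDerivAt (fun z : ℂ => z - b) 1 z := (hasDerivAt_id z).sub_const b
    have h5 := (h4.mul h1).add h2
    have h6 : deriv (fun z => (z - b) * iteratedDeriv k g z + (k : ℂ) * iteratedDeriv (k - 1) g z) z
      = 1 * iteratedDeriv k g z + (z - b) * iteratedDeriv (k + 1) g z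
        + (k : ℂ) * iteratedDeriv k g z := h5.deriv
    rw [h6]
    simp only [Nat.add_sub_cancel]
    push_cast
    ring

/-- Two distinct points of the sequence are far apart. -/
lemma sep {M : ℝ} (hM : 0 ≤ M) (g : ℂ → ℂ) (hg : Differentiable ℂ g) (a b : ℂ) (hab : a ≠ b)
    (q : ℕ) (h0 : ∀ κ < q, iteratedDeriv κ g a = 0)
    (h1 : iteratedDeriv q g a / (q.factorial : ℂ) = 1) (hb : g b = 0)
    (hgM : ∀ z ∈ sphere a 1, ‖g z‖ ≤ M) : 1 / (1 + M) ≤ ‖b - a‖ := by
  by_contra hcon
  push Not at hcon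
  set r : ℝ := ‖b - a‖ with hr
  have hr0 : 0 < r := norm_pos_iff.2 (sub_ne_zero.2 hab.symm)
  have hrM : r * (1 + M) < 1 := by
    rwa [lt_div_iff₀ (by linarith)] at hcon
  have hr1 : r < 1 := by nlinarith
  -- Taylor series
  have hT := Complex.hasSum_taylorSeries_of_entire hg a b
  rw [hb] at hT
  -- shift the index
  have hT2 : HasSum (fun n : ℕ => ((n + q).factorial : ℂ)⁻¹ • (b - a) ^ (n + q) •
      iteratedDeriv (n + q) g a) 0 := by
    have := (hasSum_nat_add_iff' (f := fun n : ℕ => ((n).factorial : ℂ)⁻¹ • (b - a) ^ n •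
      iteratedDeriv n g a) q).2 hT
    rw [Finset.sum_eq_zero] at this
    · simpa using this
    · intro κ hκ
      rw [h0 κ (Finset.mem_range.1 hκ)]
      simp
  have hT3 : HasSum (fun n : ℕ => ((n + 1 + q).factorial : ℂ)⁻¹ • (b - a) ^ (n + 1 + q) •
      iteratedDeriv (n + 1 + q) g a) (-((b - a) ^ q)) := by
    have := (hasSum_nat_add_iff' (f := fun n : ℕ => ((n + q).factorial : ℂ)⁻¹ •
      (b - a) ^ (n + q) • iteratedDeriv (n + q) g a) 1).2 hT2
    rw [Finset.sum_range_one] at this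
    simp only [zero_add] at this
    have e : -((b - a) ^ q) =
        0 - (q.factorial : ℂ)⁻¹ • (b - a) ^ q • iteratedDeriv q g a := by
      rw [zero_sub, smul_eq_mul, smul_eq_mul]
      have : (q.factorial : ℂ) ≠ 0 := by exact_mod_cast Nat.factorial_ne_zero q
      rw [div_eq_iff this, one_mul] at h1
      rw [h1]
      field_simp
    rw [e]
    exact this
  have hcoef : ∀ n : ℕ, ‖iteratedDeriv n g a‖ ≤ n.factorial * M := by
    intro n
    have := Complex.norm_iteratedDeriv_le_of_forall_mem_sphere_norm_le (c := a) (R := 1) (C := M)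
      (f := g) n one_pos hg.diffContOnCl hgM
    simpa using this
  have hterm : ∀ n : ℕ, ‖((n + 1 + q).factorial : ℂ)⁻¹ • (b - a) ^ (n + 1 + q) •
      iteratedDeriv (n + 1 + q) g a‖ ≤ r ^ (q + 1) * M * r ^ n := by
    intro n
    rw [norm_smul, norm_smul, norm_inv, norm_pow, ← hr]
    have h2 := hcoef (n + 1 + q)
    have h3 : (0 : ℝ) < (n + 1 + q).factorial := by exact_mod_cast Nat.factorial_pos _
    have h4 : ‖((n + 1 + q).factorial : ℂ)‖ = (n + 1 + q).factorial := by simp
    rw [h4]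
    calc ((n + 1 + q).factorial : ℝ)⁻¹ * (r ^ (n + 1 + q) * ‖iteratedDeriv (n + 1 + q) g a‖)
        ≤ ((n + 1 + q).factorial : ℝ)⁻¹ * (r ^ (n + 1 + q) * ((n + 1 + q).factorial * M)) := by
          gcongr
      _ = r ^ (q + 1) * M * r ^ n := by
          field_simp
          ring
  have hgeo : HasSum (fun n : ℕ => r ^ (q + 1) * M * r ^ n) (r ^ (q + 1) * M * (1 - r)⁻¹) :=
    (hasSum_geometric_of_lt_one hr0.le hr1).mul_left _
  have h5 : ‖-((b - a) ^ q)‖ ≤ r ^ (q + 1) * M * (1 - r)⁻¹ := by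
    rw [← hT3.tsum_eq, ← hgeo.tsum_eq]
    exact tsum_of_norm_bounded hgeo hterm |>.trans (le_of_eq hgeo.tsum_eq.symm)
  rw [norm_neg, norm_pow, ← hr, pow_succ] at h5
  have h6 : 0 < r ^ q := pow_pos hr0 q
  have h7 : 1 ≤ r * M * (1 - r)⁻¹ := by
    have : r ^ q * 1 ≤ r ^ q * (r * M * (1 - r)⁻¹) := by
      calc r ^ q * 1 = r ^ q := mul_one _
        _ ≤ r ^ q * r * M * (1 - r)⁻¹ := h5
        _ = _ := by ring
    exact le_of_mul_le_mul_left this h6
  rw [← div_eq_mul_inv, le_div_iff₀ (by linarith)] at h7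
  nlinarith

end Pool.Agent.Y250.UI
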