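import Mathlib
import Pool.Agent.Y250.UId
set_option autoImplicit false

/-! The main theorem on universal interpolation. -/

namespace Pool.Agent.Y250.UI

open Filter Topology Metric Set MeasureTheory

lemma one_add_le (z : ℂ) : 1 + ‖z‖ ≤ 2 * Real.exp (rho z) := by
  have h1 : 1 + ‖z‖ ^ 2 ≤ Real.exp (rho z) := by
    have h2 : Real.exp (Real.log (1 + ‖z‖ ^ 2)) = 1 + ‖z‖ ^ 2 := Real.exp_log (by positivity)
    rw [← h2]
    apply Real.exp_le_exp.2
    unfold rho
    have := abs_nonneg z.im
    linarith
  nlinarith [sq_nonneg (‖z‖ - 1), norm_nonneg z]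

lemma summ {a : ℕ → ℂ} {p : ℕ → ℕ} (ha : Function.Injective a) (hp : ∀ n, 1 ≤ p n) {K : ℕ}
    (hK : ∀ n, ∃ g, Bd K g ∧ ∀ m, ∀ κ < p m,
      iteratedDeriv κ g (a m) / (κ.factorial : ℂ) = if κ + 1 = p m ∧ m = n then 1 else 0) :
    Summable fun n => Real.exp (-((2 * K + 3) * rho (a n))) := by
  set Mn : ℕ → ℝ := fun n => K * Real.exp (K * (rho (a n) + 3)) with hMn
  have hM0 : ∀ n, 0 ≤ Mn n := fun n => by rw [hMn]; positivity
  set s : ℕ → ℝ := fun n => 1 / (2 * (1 + Mn n)) with hs
  have hs0 : ∀ n, 0 < s n := by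
    intro n
    have := hM0 n
    rw [hs]
    positivity
  have hs1 : ∀ n, s n ≤ 1 := by
    intro n
    have := hM0 n
    rw [hs]
    simp only
    rw [div_le_one (by positivity)]
    linarith
  have hsep : ∀ n m, n ≠ m → 2 * s n ≤ dist (a m) (a n) := by
    intro n m hnm
    obtain ⟨g, hg, hi⟩ := hK n
    have h1 := sep (hM0 n) g hg.1 (a n) (a m) (fun h => hnm (ha h)) (p n - 1)
      (by
        intro κ hκ
        have h2 := hi n κ (by omega)
        rw [if_neg (by rintro ⟨h3, -⟩; omega), div_eq_zero_iff] at h2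
        rcases h2 with h2 | h2
        · exact h2
        · exact absurd h2 (by exact_mod_cast Nat.factorial_ne_zero κ))
      (by
        have h2 := hi n (p n - 1) (by have := hp n; omega)
        rwa [if_pos ⟨by have := hp n; omega, rfl⟩] at h2)
      (by
        have h2 := hi m 0 (by have := hp m; omega)
        rw [if_neg (by rintro ⟨-, h3⟩; exact hnm h3.symm)] at h2
        simpa using h2)
      (by
        intro z hz
        refine (hg.2 z).trans ?_
        rw [hMn]
        simp only
        have h3 : ‖z - a n‖ ≤ 1 := by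
          rw [mem_sphere, dist_eq_norm] at hz
          exact hz.le
        have h4 := rho_near h3
        gcongr)
    rw [dist_eq_norm]
    refine le_trans (le_of_eq ?_) h1
    rw [hs]
    simp only
    have := hM0 n
    field_simp
  have hdisj : Pairwise (Function.onFun Disjoint fun n => ball (a n) (s n)) := by
    intro n m hnm
    simp only [Function.onFun]
    rw [Set.disjoint_left]
    intro x hx hx'
    rw [mem_ball] at hx hx'
    have h1 := hsep n m hnm
    have h2 := hsep m n hnm.symm
    rw [dist_comm (a n) (a m)] at h2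
    have h3 := dist_triangle_left (a m) (a n) x
    linarith
  set φ : ℂ → ℝ := fun z => (1 + ‖z‖) ^ (-(3 : ℝ)) with hφ
  have hφi : Integrable φ := by
    apply integrable_one_add_norm
    rw [Complex.finrank_real_complex]
    norm_num
  have hφ0 : ∀ z, 0 ≤ φ z := fun z => by rw [hφ]; positivity
  have hball : ∀ n, Real.pi * (s n ^ 2 * ((2 + ‖a n‖) ^ 3)⁻¹) ≤ ∫ z in ball (a n) (s n), φ z := by
    intro n
    have h1 := setIntegral_ge_of_const_le_real (μ := (volume : Measure ℂ)) (f := φ)
      (c := ((2 + ‖a n‖) ^ 3)⁻¹) (s := ball (a n) (s n)) measurableSet_ball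
      (measure_ball_lt_top.ne) (by
        intro z hz
        rw [hφ]
        simp only
        rw [Real.rpow_neg (by positivity), show (3 : ℝ) = ((3 : ℕ) : ℝ) by norm_num,
          Real.rpow_natCast]
        have h2 : ‖z‖ ≤ ‖a n‖ + 1 := by
          rw [mem_ball, dist_eq_norm] at hz
          have h3 := norm_add_le (z - a n) (a n)
          rw [sub_add_cancel] at h3
          have := hs1 n
          linarith
        apply inv_anti₀ (by positivity)
        apply pow_le_pow_left₀ (by positivity)
        linarith) hφi.integrableOn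
    refine le_trans (le_of_eq ?_) h1
    rw [Measure.real, Complex.volume_ball]
    simp only [ENNReal.toReal_mul, ENNReal.toReal_pow, ENNReal.toReal_ofReal (hs0 n).le,
      ENNReal.coe_toReal, NNReal.coe_real_pi]
    ring
  have hsum1 : Summable fun n => Real.pi * (s n ^ 2 * ((2 + ‖a n‖) ^ 3)⁻¹) := by
    apply summable_of_sum_le (c := ∫ z, φ z)
    · intro n
      positivity
    · intro u
      calc ∑ n ∈ u, Real.pi * (s n ^ 2 * ((2 + ‖a n‖) ^ 3)⁻¹)
          ≤ ∑ n ∈ u, ∫ z in ball (a n) (s n), φ z := Finset.sum_le_sum fun n _ => hball n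
        _ = ∫ z in ⋃ n ∈ u, ball (a n) (s n), φ z := by
            rw [integral_biUnion_finset]
            · intro n _
              exact measurableSet_ball
            · intro n _ m _ hnm
              exact hdisj hnm
            · intro n _
              exact hφi.integrableOn
        _ ≤ ∫ z, φ z := setIntegral_le_integral hφi (Eventually.of_forall hφ0)
  set C0 : ℝ := 2 * (1 + K * Real.exp (3 * K)) with hC0
  have hC0p : 0 < C0 := by rw [hC0]; positivity
  refine Summable.of_nonneg_of_le (fun n => (Real.exp_pos _).le) (fun n => ?_)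
    (hsum1.mul_left (C0 ^ 2 * 27 / Real.pi))
  have h1 : Real.exp (-(K * rho (a n))) / C0 ≤ s n := by
    rw [hs]
    simp only
    rw [div_le_div_iff₀ hC0p (by have := hM0 n; positivity), hMn, hC0]
    simp only
    have h2 : Real.exp (K * (rho (a n) + 3)) = Real.exp (K * rho (a n)) * Real.exp (3 * K) := by
      rw [← Real.exp_add]
      ring_nf
    rw [h2, Real.exp_neg]
    have h3 : 1 ≤ Real.exp (K * rho (a n)) :=
      Real.one_le_exp (mul_nonneg (Nat.cast_nonneg _) (rho_nonneg _))
    have h4 : (0 : ℝ) < Real.exp (K * rho (a n)) := Real.exp_pos _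
    rw [inv_mul_le_iff₀ h4]
    have h5 : 0 ≤ (K : ℝ) * Real.exp (3 * K) := by positivity
    nlinarith
  have h2 : Real.exp (-(3 * rho (a n))) / 27 ≤ ((2 + ‖a n‖) ^ 3)⁻¹ := by
    have h3 : 2 + ‖a n‖ ≤ 3 * Real.exp (rho (a n)) := by
      have := one_add_le (a n)
      have := Real.one_le_exp (rho_nonneg (a n))
      linarith
    have h4 : (2 + ‖a n‖) ^ 3 ≤ 27 * Real.exp (3 * rho (a n)) := by
      calc (2 + ‖a n‖) ^ 3 ≤ (3 * Real.exp (rho (a n))) ^ 3 := by gcongr
        _ = 27 * Real.exp (3 * rho (a n)) := by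
          rw [mul_pow, ← Real.exp_nat_mul]
          norm_num
    rw [Real.exp_neg, div_eq_mul_inv, ← mul_inv]
    apply inv_anti₀ (by positivity)
    rw [mul_comm]
    exact h4
  have h3 : Real.exp (-((2 * K + 3) * rho (a n))) =
      C0 ^ 2 * 27 * ((Real.exp (-(K * rho (a n))) / C0) ^ 2 *
        (Real.exp (-(3 * rho (a n))) / 27)) := by
    have h4 : Real.exp (-((2 * K + 3) * rho (a n))) =
        Real.exp (-(K * rho (a n))) ^ 2 * Real.exp (-(3 * rho (a n))) := by
      rw [← Real.exp_nat_mul, ← Real.exp_add]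
      congr 1
      push_cast
      ring
    rw [h4]
    field_simp
  rw [h3]
  have h5 : C0 ^ 2 * 27 / Real.pi * (Real.pi * (s n ^ 2 * ((2 + ‖a n‖) ^ 3)⁻¹)) =
      C0 ^ 2 * 27 * (s n ^ 2 * ((2 + ‖a n‖) ^ 3)⁻¹) := by
    field_simp
  rw [h5]
  gcongr

end Pool.Agent.Y250.UI
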