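import Mathlib
import Pool.Agent.Y250.UIe
set_option autoImplicit false

/-! The main theorem on universal interpolation. -/

namespace Pool.Agent.Y250.UI

open Filter Topology Metric Set MeasureTheory

theorem main (a : ℕ → ℂ) (p : ℕ → ℕ) (ha : Function.Injective a) (hp : ∀ n, 1 ≤ p n)
    (hU : Univ a p) :
    ∃ f : ℂ → ℂ, Cls f ∧ (∃ z, f z ≠ 0) ∧
      (∀ n, ∀ k < p n, iteratedDeriv k f (a n) = 0) ∧
      ∃ ε > (0:ℝ), ∃ c > (0:ℝ), ∀ n,
        ε * Real.exp (-(c * rho (a n))) ≤
          ‖iteratedDeriv (p n) f (a n)‖ / ((p n).factorial : ℝ) := by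
  obtain ⟨K, hK⟩ := uniform hU
  have hS := summ ha hp hK
  choose g hg hi using hK
  set γ : ℝ := 2 * K + 3 with hγ
  have hγ0 : 0 < γ := by rw [hγ]; positivity
  set e : ℕ → ℝ := fun n => Real.exp (-(γ * rho (a n))) with he
  have he0 : ∀ n, 0 < e n := fun n => Real.exp_pos _
  set w : ℕ → ℝ := fun n => Real.exp (-((γ + 1) * rho (a n))) with hw
  have hw0 : ∀ n, 0 < w n := fun n => Real.exp_pos _
  set u : ℕ → ℝ := fun n => w n * (1 + ‖a n‖) with hu
  have hu0 : ∀ n, 0 ≤ u n := fun n => by
    have := (hw0 n).le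
    rw [hu]
    positivity
  have hus : Summable u := by
    refine Summable.of_nonneg_of_le hu0 (fun n => ?_) (hS.mul_left 2)
    have h1 := one_add_le (a n)
    have h2 : w n * Real.exp (rho (a n)) = Real.exp (-(γ * rho (a n))) := by
      rw [hw, ← Real.exp_add]
      ring_nf
    rw [hu]
    calc w n * (1 + ‖a n‖) ≤ w n * (2 * Real.exp (rho (a n))) := by
          have := (hw0 n).le
          gcongr
      _ = 2 * Real.exp (-(γ * rho (a n))) := by rw [← h2]; ring
  set Q : ℂ → ℝ := fun z => (1 + ‖z‖) * (K * Real.exp (K * rho z)) with hQ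
  have hQc : Continuous Q := by
    have := rho_cont
    fun_prop
  have hQ0 : ∀ z, 0 ≤ Q z := fun z => by rw [hQ]; positivity
  set F : ℕ → ℂ → ℂ := fun n z => (w n : ℂ) * ((z - a n) * g n z) with hF
  have hFd : ∀ n, Differentiable ℂ (F n) := by
    intro n
    have := (hg n).1
    rw [hF]
    fun_prop
  have hFb : ∀ n z, ‖F n z‖ ≤ u n * Q z := by
    intro n z
    rw [hF]
    simp only
    rw [norm_mul, norm_mul, Complex.norm_real, Real.norm_eq_abs, abs_of_pos (hw0 n)]
    have h1 := norm_sub_le z (a n)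
    have h2 : ‖z - a n‖ ≤ (1 + ‖a n‖) * (1 + ‖z‖) := by
      have := norm_nonneg z
      have := norm_nonneg (a n)
      nlinarith
    have h3 := (hg n).2 z
    have h4 := (hw0 n).le
    calc w n * (‖z - a n‖ * ‖g n z‖)
        ≤ w n * ((1 + ‖a n‖) * (1 + ‖z‖) * (K * Real.exp (K * rho z))) := by gcongr
      _ = u n * Q z := by rw [hu, hQ]; ring
  -- derivatives of the terms
  have hFi : ∀ n κ z, iteratedDeriv κ (F n) z = (w n : ℂ) * ((z - a n) * iteratedDeriv κ (g n) z +
      κ * iteratedDeriv (κ - 1) (g n) z) := by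
    intro n κ z
    have h1 : F n = fun z => (w n : ℂ) * (fun z => (z - a n) * g n z) z := rfl
    rw [h1, iteratedDeriv_const_mul_field, iter_lin (g n) (hg n).1]
  have hgz : ∀ n m κ, κ < p m → ¬ (κ + 1 = p m ∧ m = n) → iteratedDeriv κ (g n) (a m) = 0 := by
    intro n m κ hκ h
    have h2 := hi n m κ hκ
    rw [if_neg h, div_eq_zero_iff] at h2
    rcases h2 with h2 | h2
    · exact h2
    · exact absurd h2 (by exact_mod_cast Nat.factorial_ne_zero κ)
  have hF0 : ∀ n m κ, κ < p m → iteratedDeriv κ (F n) (a m) = 0 := by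
    intro n m κ hκ
    rw [hFi]
    have h1 : (a m - a n) * iteratedDeriv κ (g n) (a m) = 0 := by
      by_cases hmn : m = n
      · rw [hmn, sub_self, zero_mul]
      · rw [hgz n m κ hκ (fun h => hmn h.2), mul_zero]
    have h2 : (κ : ℂ) * iteratedDeriv (κ - 1) (g n) (a m) = 0 := by
      rcases Nat.eq_zero_or_pos κ with h | h
      · rw [h]
        simp
      · rw [hgz n m (κ - 1) (by omega) (fun h => by omega), mul_zero]
    rw [h1, h2]
    simp
  have hF1 : ∀ m, iteratedDeriv (p m) (F m) (a m) = (w m : ℂ) * ((p m).factorial : ℂ) := by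
    intro m
    rw [hFi, sub_self, zero_mul, zero_add]
    have h1 := hi m m (p m - 1) (by have := hp m; omega)
    rw [if_pos ⟨by have := hp m; omega, rfl⟩, div_eq_iff
      (by exact_mod_cast Nat.factorial_ne_zero _), one_mul] at h1
    rw [h1]
    have h2 : (p m).factorial = p m * (p m - 1).factorial :=
      (Nat.mul_factorial_pred (by have := hp m; omega)).symm
    rw [h2]
    push_cast
    ring
  -- the matrix
  set c : ℕ → ℕ → ℂ := fun n m => iteratedDeriv (p m) (F n) (a m) / ((p m).factorial : ℂ) with hc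
  have hcm : ∀ m, ‖c m m‖ = w m := by
    intro m
    rw [hc]
    simp only
    rw [hF1, mul_div_assoc, div_self (by exact_mod_cast Nat.factorial_ne_zero _), mul_one,
      Complex.norm_real, Real.norm_eq_abs, abs_of_pos (hw0 m)]
  have hcauchy : ∀ m, ∃ C, 0 ≤ C ∧ ∀ n κ, ‖iteratedDeriv κ (F n) (a m)‖ ≤ κ.factorial * (u n * C) := by
    intro m
    obtain ⟨C, hC⟩ := (isCompact_sphere (a m) 1).exists_bound_of_continuousOn hQc.continuousOn
    refine ⟨|C|, abs_nonneg C, fun n κ => ?_⟩
    have h1 := Complex.norm_iteratedDeriv_le_of_forall_mem_sphere_norm_le (c := a m) (R := 1)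
      (C := u n * |C|) (f := F n) κ one_pos (hFd n).diffContOnCl (by
        intro z hz
        refine (hFb n z).trans ?_
        have h2 := (le_abs_self _).trans ((hC z hz).trans (le_abs_self C))
        have := hu0 n
        gcongr)
    simpa using h1
  have hcs : ∀ m, Summable fun n => ‖c n m‖ := by
    intro m
    obtain ⟨C, hC0, hC⟩ := hcauchy m
    refine Summable.of_nonneg_of_le (fun n => norm_nonneg _) (fun n => ?_) (hus.mul_right C)
    rw [hc]
    simp only
    rw [norm_div]
    have h1 : (0 : ℝ) < (p m).factorial := by exact_mod_cast Nat.factorial_pos _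
    have h2 : ‖((p m).factorial : ℂ)‖ = (p m).factorial := by simp
    rw [h2, div_le_iff₀ h1]
    refine (hC n (p m)).trans (le_of_eq ?_)
    ring
  -- the choice of the coefficients
  set S : ℝ := ∑' n, e n with hSdef
  have hS0 : 0 ≤ S := tsum_nonneg fun n => (he0 n).le
  set δ : ℕ → ℝ := fun m => w m * e m / (2 * (S + 1)) with hδ
  have hδ0 : ∀ m, 0 < δ m := by
    intro m
    have := he0 m
    have := hw0 m
    rw [hδ]
    positivity
  have hδw : (fun m => 2 * δ m / w m) = fun m => e m * (S + 1)⁻¹ := by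
    ext m
    have := (hw0 m).ne'
    rw [hδ]
    field_simp
  obtain ⟨x, hx, hxm⟩ := choose_inf c δ w hw0 hδ0 hcm hcs
    (by rw [hδw]; exact hS.mul_right _)
    (by
      rw [hδw, tsum_mul_right, ← hSdef, ← div_eq_mul_inv, div_lt_one (by linarith)]
      linarith)
  -- the function
  have hxn : ∀ n (z : ℂ), ‖(x n : ℂ) * z‖ ≤ ‖z‖ := by
    intro n z
    rw [norm_mul, Complex.norm_real, Real.norm_eq_abs, abs_of_nonneg (hx n).1]
    have := norm_nonneg z
    have := (hx n).2
    nlinarith
  set T : ℕ → ℂ → ℂ := fun n z => (x n : ℂ) * F n z with hT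
  have hTd : ∀ n, Differentiable ℂ (T n) := fun n => (hFd n).const_mul _
  have hTb : ∀ n z, ‖T n z‖ ≤ u n * Q z := fun n z => (hxn n _).trans (hFb n z)
  set f : ℂ → ℂ := fun z => ∑' n, T n z with hf
  have hlu : TendstoLocallyUniformlyOn (fun s : Finset ℕ => fun z => ∑ n ∈ s, T n z) f atTop
      univ := by
    intro v hv z _
    obtain ⟨C, hC⟩ := (isCompact_closedBall z 1).exists_bound_of_continuousOn hQc.continuousOn
    refine ⟨closedBall z 1, mem_nhdsWithin_of_mem_nhds (closedBall_mem_nhds z one_pos), ?_⟩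
    exact tendstoUniformlyOn_tsum (hus.mul_right C) (fun n y hy => (hTb n y).trans (by
      have h1 := (le_abs_self _).trans (hC y hy)
      have := hu0 n
      gcongr)) v hv
  have hfd : Differentiable ℂ f := by
    have := hlu.differentiableOn (Eventually.of_forall fun s =>
      (Differentiable.fun_sum fun n _ => hTd n).differentiableOn) isOpen_univ
    exact differentiableOn_univ.1 this
  have hder : ∀ κ z, HasSum (fun n => (x n : ℂ) * iteratedDeriv κ (F n) z)
      (iteratedDeriv κ f z) := by
    intro κ z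
    have h1 := (iter_tendsto (fun s : Finset ℕ => fun z => ∑ n ∈ s, T n z) f hlu
      (fun s => Differentiable.fun_sum fun n _ => hTd n) κ).tendsto_at (mem_univ z)
    unfold HasSum
    refine h1.congr fun s => ?_
    rw [iteratedDeriv_fun_sum fun n _ => (hTd n).contDiff.contDiffAt]
    apply Finset.sum_congr rfl
    intro n _
    rw [hT]
    simp only
    rw [iteratedDeriv_const_mul_field]
  have hlow : ∀ m, δ m ≤ ‖iteratedDeriv (p m) f (a m)‖ / ((p m).factorial : ℝ) := by
    intro m
    refine (hxm m).trans (le_of_eq ?_)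
    have h1 := ((hder (p m) (a m)).div_const ((p m).factorial : ℂ)).tsum_eq
    have h2 : ‖((p m).factorial : ℂ)‖ = (p m).factorial := by simp
    rw [← h2, ← norm_div, ← h1]
    congr 2
    ext n
    rw [hc]
    simp only
    ring
  refine ⟨f, ⟨hfd, 2 * (∑' n, u n) * K + 1, ?_, K + 1, by positivity, ?_⟩, ?_, ?_, ?_⟩
  · have : 0 ≤ ∑' n, u n := tsum_nonneg hu0
    positivity
  · intro z
    have h1 : ‖f z‖ ≤ (∑' n, u n) * Q z := by
      have h2 := tsum_of_norm_bounded (f := fun n => T n z) (hus.mul_right (Q z)).hasSum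
        (fun n => hTb n z)
      rwa [tsum_mul_right] at h2
    refine h1.trans ?_
    have h3 := one_add_le z
    have h4 : 0 ≤ ∑' n, u n := tsum_nonneg hu0
    calc (∑' n, u n) * Q z
        ≤ (∑' n, u n) * ((2 * Real.exp (rho z)) * (K * Real.exp (K * rho z))) := by
          have h5 : Q z ≤ (2 * Real.exp (rho z)) * (K * Real.exp (K * rho z)) :=
            mul_le_mul_of_nonneg_right h3 (by positivity)
          gcongr
      _ = 2 * (∑' n, u n) * K * Real.exp ((K + 1) * rho z) := by
          have : Real.exp ((K + 1) * rho z) = Real.exp (rho z) * Real.exp (K * rho z) := by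
            rw [← Real.exp_add]
            ring_nf
          rw [this]
          ring
      _ ≤ (2 * (∑' n, u n) * K + 1) * Real.exp ((K + 1) * rho z) := by
          have := Real.exp_pos ((K + 1) * rho z)
          nlinarith
  · by_contra hcon
    push Not at hcon
    have h1 : f = 0 := by
      ext z
      exact hcon z
    have h2 := hlow 0
    have h3 := hδ0 0
    rw [h1] at h2
    have h4 : iteratedDeriv (p 0) (0 : ℂ → ℂ) (a 0) = 0 := by
      have h5 : (0 : ℂ → ℂ) = fun _ => (0 : ℂ) := rfl
      rw [h5, iteratedDeriv_const]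
      split_ifs <;> rfl
    rw [h4] at h2
    simp at h2
    linarith
  · intro m κ hκ
    rw [← (hder κ (a m)).tsum_eq]
    simp only [hF0 _ m κ hκ, mul_zero, tsum_zero]
  · refine ⟨1 / (2 * (S + 1)), by positivity, 2 * γ + 1, by positivity, fun m => ?_⟩
    refine le_trans (le_of_eq ?_) (hlow m)
    rw [hδ, hw, he]
    simp only
    rw [← Real.exp_add]
    have : -((2 * γ + 1) * rho (a m)) = -((γ + 1) * rho (a m)) + -(γ * rho (a m)) := by ring
    rw [this]
    ring

end Pool.Agent.Y250.UI
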